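import Pool.Agent.MP_47b17d_nt.H77.Apx0
import Pool.Agent.MP_47b17d_nt.H77.CH
import Pool.Agent.MP_47b17d_nt.H77.PIG
import Pool.Agent.MP_47b17d_nt.H77.UP
import Pool.Agent.MP_47b17d_nt.H77.CHE
import Pool.Agent.MP_47b17d_nt.H77.LOW
import Pool.Agent.MP_47b17d_nt.H77.LAP
import Pool.Agent.MP_47b17d_nt.H77.MEM
import Pool.Agent.MP_47b17d_nt.H77.A
import Pool.Agent.MP_47b17d_nt.H77.GA

/-! The product `p(1) ⋯ p(N)` has at least `√N / (log N) ^ 7` distinct prime factors. -/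

set_option autoImplicit false

namespace Pool.Agent.Results.MP_47b17d_nt.DistinctPrimes

open Pool.Agent.MP_47b17d_nt.H77 in
theorem result : ∀ᶠ N : ℕ in Filter.atTop,
    Real.sqrt N / Real.log N ^ 7 ≤
      ((∏ n ∈ Finset.Icc 1 N, Fintype.card (Nat.Partition n)).primeFactors.card : ℝ) :=
  goalA (rowA rowCOMB rowCH rowPIG rowUP (rowLOW rowCHE) rowMON (rowMEM apx0 rowLAP rowMON))

end Pool.Agent.Results.MP_47b17d_nt.DistinctPrimes
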