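import Pool.Agent.MP_47b17d_nt.H77.Apx0
import Pool.Agent.MP_47b17d_nt.H77.DD
import Pool.Agent.MP_47b17d_nt.H77.DER
import Pool.Agent.MP_47b17d_nt.H77.SZ
import Pool.Agent.MP_47b17d_nt.H77.REL
import Pool.Agent.MP_47b17d_nt.H77.NEW
import Pool.Agent.MP_47b17d_nt.H77.WIN2
import Pool.Agent.MP_47b17d_nt.H77.GE
import Pool.Agent.MP_47b17d_nt.H77.GD2

/-! For almost all primes `q` the number `p(q - 1)` has a prime factor above `c log q`. -/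

set_option autoImplicit false

namespace Pool.Agent.Results.MP_47b17d_nt.ShiftedPrimes

open Pool.Agent.MP_47b17d_nt.H77 in
theorem result : ∃ c : ℝ, 0 < c ∧ Filter.Tendsto (fun N : ℕ =>
    (Set.ncard {q : ℕ | q ≤ N ∧ q.Prime ∧ ∃ l : ℕ, l.Prime ∧
      l ∣ Fintype.card (Nat.Partition (q - 1)) ∧ c * Real.log q < (l : ℝ)} : ℝ) /
      Nat.primeCounting N) Filter.atTop (nhds 1) := by
  obtain ⟨c, hc, h⟩ := goalD2 (rowC2 (goalE (rowWIN2 rowREL (rowNEW (rowSZ apx0 rowDD rowDER)))))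
  refine ⟨c, hc, h.congr fun N => ?_⟩
  rw [← Set.ncard_coe_finset]
  congr 3
  ext q
  simp only [Finset.coe_filter, Finset.mem_Icc, Set.mem_ofPred_eq, Nat.mem_primeFactors]
  constructor
  · rintro ⟨⟨-, h1⟩, h2, l, ⟨h3, h4, -⟩, h5⟩
    exact ⟨h1, h2, l, h3, h4, h5⟩
  · rintro ⟨h1, h2, l, h3, h4, h5⟩
    exact ⟨⟨h2.one_lt.le, h1⟩, h2, l, ⟨h3, h4, Fintype.card_ne_zero⟩, h5⟩

end Pool.Agent.Results.MP_47b17d_nt.ShiftedPrimes
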